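import Mathlib

set_option autoImplicit false

/-!
# A five term relation for the values of a cubic polynomial

For the cubic `Φ(w) = w ^ 3 + A w ^ 2 + 3 B C w + B C ^ 2` and every `r` put `m₁ = -A - B (r - 1) (r + 2)`,
`n₃ = m₁ - B`, `n₁ = r m₁ - C`, `n₂ = -(r + 1) m₁ - C`, `S = A - B - 2 C`, `m₂ = n₃ + Φ(n₃) / (S B)`. Then
`Φ(w) = (w - n₁) (w - n₂) (w - n₃) + S (w - m₁) (w - m₂)`, so that
`Φ(n₁) Φ(n₂) Φ(n₃) = S ^ 3 Φ(m₁) Φ(m₂)`.
-/

namespace Pool.Agent.H39x.CU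

/-- five term relation, opaque form -/
lemma five {n1 n2 n3 m1 m2 S a2 a1 a0 : ℤ}
    (h1 : n1 + n2 + n3 = S - a2) (h2 : n1 * n2 + n1 * n3 + n2 * n3 = a1 + S * (m1 + m2))
    (h3 : a0 = S * (m1 * m2) - n1 * n2 * n3) :
    (n1 ^ 3 + a2 * n1 ^ 2 + a1 * n1 + a0) * (n2 ^ 3 + a2 * n2 ^ 2 + a1 * n2 + a0) *
      (n3 ^ 3 + a2 * n3 ^ 2 + a1 * n3 + a0) =
    S ^ 3 * ((m1 ^ 3 + a2 * m1 ^ 2 + a1 * m1 + a0) * (m2 ^ 3 + a2 * m2 ^ 2 + a1 * m2 + a0)) := by
  have hX : ∀ X : ℤ, X ^ 3 + a2 * X ^ 2 + a1 * X + a0 =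
      (X - n1) * (X - n2) * (X - n3) + S * ((X - m1) * (X - m2)) := by
    intro X
    linear_combination (X ^ 2) * h1 - X * h2 + h3
  rw [hX n1, hX n2, hX n3, hX m1, hX m2]
  ring

/-- `m₁` -/
def m1' (A B r : ℤ) : ℤ := -A - B * ((r - 1) * (r + 2))
/-- `n₃` -/
def n3' (A B r : ℤ) : ℤ := m1' A B r - B
/-- `n₁` -/
def n1' (A B C r : ℤ) : ℤ := r * m1' A B r - C
/-- `n₂` -/
def n2' (A B C r : ℤ) : ℤ := -((r + 1) * m1' A B r) - C
/-- `Φ` -/
def Phi (A B C w : ℤ) : ℤ := w ^ 3 + A * w ^ 2 + 3 * B * C * w + B * C ^ 2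

lemma id1 (A B C r : ℤ) : n1' A B C r + n2' A B C r + n3' A B r = -B - 2 * C := by
  unfold n1' n2' n3'
  ring

lemma id2 (A B C r : ℤ) :
    B * (n1' A B C r * n2' A B C r + n1' A B C r * n3' A B r + n2' A B C r * n3' A B r) =
      3 * B ^ 2 * C + B * (A - B - 2 * C) * (m1' A B r + n3' A B r) + Phi A B C (n3' A B r) := by
  unfold n1' n2' n3' m1' Phi
  ring

lemma id3 (A B C r : ℤ) :
    m1' A B r * ((A - B - 2 * C) * B * n3' A B r + Phi A B C (n3' A B r)) =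
      B * (B * C ^ 2 + n1' A B C r * n2' A B C r * n3' A B r) := by
  unfold n1' n2' n3' m1' Phi
  ring

/-- the cubic scaled by `s`: `Φ_s(W) = s ^ 3 Φ(W / s)` -/
def PhiS (A B C s W : ℤ) : ℤ := W ^ 3 + s * A * W ^ 2 + 3 * s ^ 2 * B * C * W + s ^ 3 * (B * C ^ 2)

/-- the five integers -/
def pt (A B C e r : ℤ) : Fin 5 → ℤ :=
  ![(A - B - 2 * C) * B * e * n1' A B C r, (A - B - 2 * C) * B * e * n2' A B C r,
    (A - B - 2 * C) * B * e * n3' A B r, (A - B - 2 * C) * B * e * m1' A B r,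
    (A - B - 2 * C) * B * e * n3' A B r + e * Phi A B C (n3' A B r)]

lemma relation (A B C e r : ℤ) :
    PhiS A B C ((A - B - 2 * C) * B * e) (pt A B C e r 0) *
      PhiS A B C ((A - B - 2 * C) * B * e) (pt A B C e r 1) *
      PhiS A B C ((A - B - 2 * C) * B * e) (pt A B C e r 2) =
    ((A - B - 2 * C) * B * e * (A - B - 2 * C)) ^ 3 *
      (PhiS A B C ((A - B - 2 * C) * B * e) (pt A B C e r 3) *
        PhiS A B C ((A - B - 2 * C) * B * e) (pt A B C e r 4)) := by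
  have j1 := id1 A B C r
  have j2 := id2 A B C r
  have j3 := id3 A B C r
  show PhiS A B C ((A - B - 2 * C) * B * e) ((A - B - 2 * C) * B * e * n1' A B C r) *
      PhiS A B C ((A - B - 2 * C) * B * e) ((A - B - 2 * C) * B * e * n2' A B C r) *
      PhiS A B C ((A - B - 2 * C) * B * e) ((A - B - 2 * C) * B * e * n3' A B r) =
    ((A - B - 2 * C) * B * e * (A - B - 2 * C)) ^ 3 *
      (PhiS A B C ((A - B - 2 * C) * B * e) ((A - B - 2 * C) * B * e * m1' A B r) *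
        PhiS A B C ((A - B - 2 * C) * B * e)
          ((A - B - 2 * C) * B * e * n3' A B r + e * Phi A B C (n3' A B r)))
  generalize n1' A B C r = x1 at *
  generalize n2' A B C r = x2 at *
  generalize n3' A B r = x3 at *
  generalize m1' A B r = y1 at *
  generalize Phi A B C x3 = F at *
  unfold PhiS
  apply five
  · linear_combination ((A - B - 2 * C) * B * e) * j1
  · linear_combination ((A - B - 2 * C) * B * e * (A - B - 2 * C) * e) * j2
  · linear_combination (-((A - B - 2 * C) * B * e) ^ 2 * (A - B - 2 * C) * e) * j3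

end Pool.Agent.H39x.CU
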