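import Mathlib
import Pool.Agent.H39x.CU.Core

set_option autoImplicit false

/-!
# Size of the five numbers of the relation
-/

namespace Pool.Agent.H39x.CU

lemma rt (u v : ℤ) : |u| - |v| ≤ |u + v| := by
  have h := abs_sub_abs_le_abs_sub u (-v)
  rw [abs_neg, sub_neg_eq_add] at h
  exact h

lemma q_low {A B q x : ℤ} (hB : B ≠ 0) (hq : 0 ≤ q) (h : x + |A| ≤ q) : x ≤ |-A - B * q| := by
  have h1 : 1 ≤ |B| := Int.one_le_abs hB
  have h2 : |-(B * q)| = |B| * q := by rw [abs_neg, abs_mul, abs_of_nonneg hq]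
  have h3 : q ≤ |B| * q := le_mul_of_one_le_left hq h1
  have h4 := rt (-(B * q)) (-A)
  rw [h2, abs_neg] at h4
  have h5 : -(B * q) + -A = -A - B * q := by ring
  rw [h5] at h4
  linarith

lemma q_up {A B q r : ℤ} (hr : 1 ≤ r) (hq : 0 ≤ q) (h : q ≤ 2 * r ^ 2) :
    |-A - B * q| ≤ (|A| + 2 * |B|) * r ^ 2 := by
  have h1 : |-A - B * q| ≤ |A| + |B| * q := by
    have := abs_sub (-A) (B * q)
    rw [abs_neg, abs_mul, abs_of_nonneg hq] at this
    exact this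
  have h2 : |B| * q ≤ |B| * (2 * r ^ 2) := mul_le_mul_of_nonneg_left h (abs_nonneg B)
  have h3 : |A| ≤ |A| * r ^ 2 := le_mul_of_one_le_right (abs_nonneg A) (by nlinarith)
  linarith

section
variable {A B C e r x : ℤ}

lemma m1_low (hB : B ≠ 0) (hx : 0 ≤ x) (hr : |A| + 2 + x ≤ r) : r ^ 2 + x ≤ |m1' A B r| := by
  unfold m1'
  have h0 := abs_nonneg A
  refine q_low hB ?_ ?_ <;> nlinarith

lemma m1_up (hr : 2 ≤ r) : |m1' A B r| ≤ (|A| + 2 * |B|) * r ^ 2 := by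
  unfold m1'
  refine q_up (by linarith) ?_ ?_ <;> nlinarith

lemma n3_eq : n3' A B r = -A - B * ((r - 1) * (r + 2) + 1) := by
  unfold n3' m1'
  ring

lemma n3_low (hB : B ≠ 0) (hx : 0 ≤ x) (hr : |A| + 2 + x ≤ r) : r ^ 2 + x ≤ |n3' A B r| := by
  rw [n3_eq]
  have h0 := abs_nonneg A
  refine q_low hB ?_ ?_ <;> nlinarith

lemma n3_up (hr : 2 ≤ r) : |n3' A B r| ≤ (|A| + 2 * |B|) * r ^ 2 := by
  rw [n3_eq]
  refine q_up (by linarith) ?_ ?_ <;> nlinarith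

lemma lin_low {k m : ℤ} (hr : 2 + |C| ≤ r) (hk : r ≤ k) (hx : 0 ≤ x) (hm : r ^ 2 + x ≤ |m|) :
    r ^ 2 + x ≤ |k * m| - |C| := by
  have h0 := abs_nonneg C
  rw [abs_mul, abs_of_nonneg (by linarith : (0:ℤ) ≤ k)]
  have h1 : r * (r ^ 2 + x) ≤ k * |m| :=
    mul_le_mul hk hm (by positivity) (by linarith)
  have h2 : r ^ 2 + x + |C| ≤ r * (r ^ 2 + x) := by
    have : (2 + |C|) * (r ^ 2 + x) ≤ r * (r ^ 2 + x) := mul_le_mul_of_nonneg_right hr (by positivity)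
    have h3 : |C| * 1 ≤ |C| * (r ^ 2 + x) := mul_le_mul_of_nonneg_left (by nlinarith) h0
    nlinarith
  linarith

lemma n1_low (hB : B ≠ 0) (hx : 0 ≤ x) (hr : |A| + |C| + 2 + x ≤ r) :
    r ^ 2 + x ≤ |n1' A B C r| := by
  have h0 := abs_nonneg A
  have h0' := abs_nonneg C
  have hm := m1_low (A := A) (r := r) hB hx (by linarith)
  have h1 := lin_low (C := C) (k := r) (by linarith) le_rfl hx hm
  have h2 := rt (r * m1' A B r) (-C)
  rw [abs_neg] at h2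
  unfold n1'
  have e : r * m1' A B r - C = r * m1' A B r + -C := by ring
  rw [e]
  linarith

lemma n2_low (hB : B ≠ 0) (hx : 0 ≤ x) (hr : |A| + |C| + 2 + x ≤ r) :
    r ^ 2 + x ≤ |n2' A B C r| := by
  have h0 := abs_nonneg A
  have h0' := abs_nonneg C
  have hm := m1_low (A := A) (r := r) hB hx (by linarith)
  have h1 := lin_low (C := C) (k := r + 1) (by linarith) (by linarith) hx hm
  have h2 := rt (-((r + 1) * m1' A B r)) (-C)
  rw [abs_neg, abs_neg] at h2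
  unfold n2'
  have e : -((r + 1) * m1' A B r) - C = -((r + 1) * m1' A B r) + -C := by ring
  rw [e]
  linarith

lemma n1_up (hr : 2 ≤ r) : |n1' A B C r| ≤ (2 * (|A| + 2 * |B|) + |C|) * r ^ 3 := by
  have h0 := abs_nonneg A
  have h0' := abs_nonneg B
  have h1 := m1_up (A := A) (B := B) hr
  unfold n1'
  have h2 := abs_sub (r * m1' A B r) C
  rw [abs_mul, abs_of_nonneg (by linarith : (0:ℤ) ≤ r)] at h2
  have h3 : r * |m1' A B r| ≤ r * ((|A| + 2 * |B|) * r ^ 2) :=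
    mul_le_mul_of_nonneg_left h1 (by linarith)
  have hr3 : 1 ≤ r ^ 3 := one_le_pow₀ (by linarith)
  have h4 : |C| ≤ |C| * r ^ 3 := le_mul_of_one_le_right (abs_nonneg C) hr3
  have h5 : 0 ≤ (|A| + 2 * |B|) * r ^ 3 := by positivity
  have e1 : r * ((|A| + 2 * |B|) * r ^ 2) = (|A| + 2 * |B|) * r ^ 3 := by ring
  rw [e1] at h3
  linarith

lemma n2_up (hr : 2 ≤ r) : |n2' A B C r| ≤ (2 * (|A| + 2 * |B|) + |C|) * r ^ 3 := by
  have h0 := abs_nonneg A
  have h0' := abs_nonneg B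
  have h1 := m1_up (A := A) (B := B) hr
  unfold n2'
  have h2 := abs_sub (-((r + 1) * m1' A B r)) C
  rw [abs_neg, abs_mul, abs_of_nonneg (by linarith : (0:ℤ) ≤ r + 1)] at h2
  have h3 : (r + 1) * |m1' A B r| ≤ (2 * r) * ((|A| + 2 * |B|) * r ^ 2) :=
    mul_le_mul (by linarith) h1 (abs_nonneg _) (by linarith)
  have hr3 : 1 ≤ r ^ 3 := one_le_pow₀ (by linarith)
  have h4 : |C| ≤ |C| * r ^ 3 := le_mul_of_one_le_right (abs_nonneg C) hr3
  have e1 : (2 * r) * ((|A| + 2 * |B|) * r ^ 2) = 2 * (|A| + 2 * |B|) * r ^ 3 := by ring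
  rw [e1] at h3
  linarith

lemma cub_low {y b c : ℤ} (hx : 0 ≤ x) (h1 : r ^ 2 + x ≤ |y|) (h2 : |A| + |b| + |c| + 2 ≤ |y|) :
    r ^ 2 + x ≤ |y ^ 3 + A * y ^ 2 + b * y + c| := by
  have hA := abs_nonneg A
  have hb := abs_nonneg b
  have hc := abs_nonneg c
  have hy : 2 ≤ |y| := by linarith
  have e1 : y ^ 3 + A * y ^ 2 + b * y + c = y ^ 3 + (A * y ^ 2 + b * y + c) := by ring
  have h3 := rt (y ^ 3) (A * y ^ 2 + b * y + c)
  rw [← e1, abs_pow] at h3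
  have h4 : |A * y ^ 2 + b * y + c| ≤ |A| * |y| ^ 2 + |b| * |y| + |c| := by
    have g1 := abs_add_le (A * y ^ 2 + b * y) c
    have g2 := abs_add_le (A * y ^ 2) (b * y)
    rw [abs_mul, abs_mul, abs_pow] at g2
    linarith
  generalize |y| = z at *
  have h5 : |b| * z ≤ |b| * z ^ 2 := mul_le_mul_of_nonneg_left (by nlinarith) hb
  have h6 : |c| * 1 ≤ |c| * z ^ 2 := mul_le_mul_of_nonneg_left (by nlinarith) hc
  have h7 : (|A| + |b| + |c|) * z ^ 2 ≤ (z - 2) * z ^ 2 :=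
    mul_le_mul_of_nonneg_right (by linarith) (by positivity)
  have h8 : (z - 2) * z ^ 2 = z ^ 3 - 2 * z ^ 2 := by ring
  have h9 : z ≤ 2 * z ^ 2 := by nlinarith
  nlinarith

lemma cub_up {y b c ν : ℤ} (hr : 2 ≤ r) (h1 : |y| ≤ ν * r ^ 2) (hy : 1 ≤ |y|) :
    |y ^ 3 + A * y ^ 2 + b * y + c| ≤ (1 + |A| + |b| + |c|) * ν ^ 3 * r ^ 6 := by
  have hA := abs_nonneg A
  have hb := abs_nonneg b
  have hc := abs_nonneg c
  have h4 : |y ^ 3 + A * y ^ 2 + b * y + c| ≤ |y| ^ 3 + |A| * |y| ^ 2 + |b| * |y| + |c| := by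
    have g1 := abs_add_le (y ^ 3 + A * y ^ 2 + b * y) c
    have g2 := abs_add_le (y ^ 3 + A * y ^ 2) (b * y)
    have g3 := abs_add_le (y ^ 3) (A * y ^ 2)
    rw [abs_mul] at g2
    rw [abs_mul, abs_pow, abs_pow] at g3
    linarith
  generalize |y| = z at *
  have h5 : z ≤ z ^ 3 := by nlinarith [sq_nonneg z, sq_nonneg (z - 1)]
  have h6 : z ^ 2 ≤ z ^ 3 := by nlinarith [sq_nonneg z]
  have h7 : 1 ≤ z ^ 3 := one_le_pow₀ hy
  have h8 : |A| * z ^ 2 ≤ |A| * z ^ 3 := mul_le_mul_of_nonneg_left h6 hA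
  have h9 : |b| * z ≤ |b| * z ^ 3 := mul_le_mul_of_nonneg_left h5 hb
  have h10 : |c| * 1 ≤ |c| * z ^ 3 := mul_le_mul_of_nonneg_left h7 hc
  have h11 : z ^ 3 ≤ (ν * r ^ 2) ^ 3 := pow_le_pow_left₀ (by linarith) h1 3
  have h12 : (1 + |A| + |b| + |c|) * z ^ 3 ≤ (1 + |A| + |b| + |c|) * (ν * r ^ 2) ^ 3 :=
    mul_le_mul_of_nonneg_left h11 (by positivity)
  have e1 : (1 + |A| + |b| + |c|) * (ν * r ^ 2) ^ 3 = (1 + |A| + |b| + |c|) * ν ^ 3 * r ^ 6 := by ring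
  rw [e1] at h12
  nlinarith

lemma pt4_eq : pt A B C e r 4 = e * ((n3' A B r) ^ 3 + A * (n3' A B r) ^ 2 +
    (3 * B * C + (A - B - 2 * C) * B) * n3' A B r + B * C ^ 2) := by
  show (A - B - 2 * C) * B * e * n3' A B r + e * Phi A B C (n3' A B r) = _
  unfold Phi
  ring

lemma scaled {s w : ℤ} (hs : s ≠ 0) (h : x ≤ |w|) : x ≤ |s * w| := by
  rw [abs_mul]
  have h1 : 1 ≤ |s| := Int.one_le_abs hs
  have h2 : |w| ≤ |s| * |w| := le_mul_of_one_le_left (abs_nonneg w) h1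
  linarith

/-- lower bound for the five numbers -/
lemma pt_low (hB : B ≠ 0) (hS : A - B - 2 * C ≠ 0) (he : e ≠ 0) (hx : 0 ≤ x)
    (hr : |A| + |C| + |3 * B * C + (A - B - 2 * C) * B| + |B * C ^ 2| + 2 + x ≤ r) (i : Fin 5) :
    r ^ 2 + x ≤ |pt A B C e r i| := by
  have hA := abs_nonneg A
  have hC := abs_nonneg C
  have hb := abs_nonneg (3 * B * C + (A - B - 2 * C) * B)
  have hc := abs_nonneg (B * C ^ 2)
  have hs : (A - B - 2 * C) * B * e ≠ 0 := mul_ne_zero (mul_ne_zero hS hB) he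
  fin_cases i
  · exact scaled hs (n1_low hB hx (by linarith))
  · exact scaled hs (n2_low hB hx (by linarith))
  · exact scaled hs (n3_low hB hx (by linarith))
  · exact scaled hs (m1_low hB hx (by linarith))
  · show r ^ 2 + x ≤ |pt A B C e r 4|
    rw [pt4_eq]
    have h3 := n3_low (A := A) (B := B) (r := r) hB hx (by linarith)
    refine scaled he (cub_low hx h3 ?_)
    have h4 : r ≤ r ^ 2 := by nlinarith
    linarith

/-- the constant in the upper bound -/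
def Cst (A B C e : ℤ) : ℤ :=
  |(A - B - 2 * C) * B * e| * (2 * (|A| + 2 * |B|) + |C|) +
    |e| * ((1 + |A| + |3 * B * C + (A - B - 2 * C) * B| + |B * C ^ 2|) * (|A| + 2 * |B|) ^ 3)

lemma Cst_nonneg : 0 ≤ Cst A B C e := by
  unfold Cst
  positivity

lemma pt_up (hB : B ≠ 0) (hr : |A| + 2 ≤ r) (i : Fin 5) :
    |pt A B C e r i| ≤ Cst A B C e * r ^ 6 := by
  have hA := abs_nonneg A
  have hBn := abs_nonneg B
  have hCn := abs_nonneg C
  have hr2 : 2 ≤ r := by linarith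
  have hr26 : r ^ 2 ≤ r ^ 6 := pow_le_pow_right₀ (by linarith) (by norm_num)
  have hr36 : r ^ 3 ≤ r ^ 6 := pow_le_pow_right₀ (by linarith) (by norm_num)
  have hK : 0 ≤ |e| * ((1 + |A| + |3 * B * C + (A - B - 2 * C) * B| + |B * C ^ 2|) *
    (|A| + 2 * |B|) ^ 3) * r ^ 6 := by positivity
  have key : ∀ w : ℤ, |w| ≤ (2 * (|A| + 2 * |B|) + |C|) * r ^ 6 →
      |(A - B - 2 * C) * B * e * w| ≤ Cst A B C e * r ^ 6 := by
    intro w hw
    rw [abs_mul]
    have := mul_le_mul_of_nonneg_left hw (abs_nonneg ((A - B - 2 * C) * B * e))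
    unfold Cst
    nlinarith
  have k2 : ∀ w : ℤ, |w| ≤ (|A| + 2 * |B|) * r ^ 2 → |w| ≤ (2 * (|A| + 2 * |B|) + |C|) * r ^ 6 := by
    intro w hw
    have h1 : (|A| + 2 * |B|) * r ^ 2 ≤ (2 * (|A| + 2 * |B|) + |C|) * r ^ 6 :=
      mul_le_mul (by linarith) hr26 (by positivity) (by positivity)
    linarith
  have k3 : ∀ w : ℤ, |w| ≤ (2 * (|A| + 2 * |B|) + |C|) * r ^ 3 →
      |w| ≤ (2 * (|A| + 2 * |B|) + |C|) * r ^ 6 := by
    intro w hw
    have h1 : (2 * (|A| + 2 * |B|) + |C|) * r ^ 3 ≤ (2 * (|A| + 2 * |B|) + |C|) * r ^ 6 :=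
      mul_le_mul_of_nonneg_left hr36 (by positivity)
    linarith
  fin_cases i
  · exact key _ (k3 _ (n1_up hr2))
  · exact key _ (k3 _ (n2_up hr2))
  · exact key _ (k2 _ (n3_up hr2))
  · exact key _ (k2 _ (m1_up hr2))
  · show |pt A B C e r 4| ≤ Cst A B C e * r ^ 6
    rw [pt4_eq, abs_mul]
    have h1 : 1 ≤ |n3' A B r| := by
      have := n3_low (A := A) (B := B) (r := r) (x := 0) hB le_rfl (by linarith)
      nlinarith
    have h2 := cub_up (A := A) (b := 3 * B * C + (A - B - 2 * C) * B) (c := B * C ^ 2) hr2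
      (n3_up (A := A) (B := B) hr2) h1
    have h3 := mul_le_mul_of_nonneg_left h2 (abs_nonneg e)
    have h4 : 0 ≤ |(A - B - 2 * C) * B * e| * (2 * (|A| + 2 * |B|) + |C|) * r ^ 6 := by positivity
    unfold Cst
    nlinarith

end

/-- a cubic polynomial does not vanish far out -/
lemma cubic_ne {T a2 a1 a0 : ℤ} (h : |a2| + |a1| + |a0| + 2 ≤ |T|) :
    T ^ 3 + a2 * T ^ 2 + a1 * T + a0 ≠ 0 := by
  intro h0
  have h1 := cub_low (A := a2) (r := 1) (x := 0) (y := T) (b := a1) (c := a0) le_rfl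
    (by have := abs_nonneg a2; have := abs_nonneg a1; have := abs_nonneg a0; linarith) h
  rw [h0] at h1
  norm_num at h1

end Pool.Agent.H39x.CU
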