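import Mathlib
import Pool.Agent.H39x.CU.Bound

set_option autoImplicit false

/-!
# One value is taken infinitely often
-/

namespace Pool.Agent.H39x.CU

/-- `h` is completely multiplicative with values `1` and `-1` on the positive integers -/
structure CM (h : ℕ → ℤ) : Prop where
  mul : ∀ m n : ℕ, m ≠ 0 → n ≠ 0 → h (m * n) = h m * h n
  val : ∀ n : ℕ, n ≠ 0 → h n = 1 ∨ h n = -1

variable {h : ℕ → ℤ}

lemma CM.sq (hh : CM h) {n : ℕ} (hn : n ≠ 0) : h n * h n = 1 := by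
  rcases hh.val n hn with h | h <;> rw [h] <;> norm_num

lemma CM.one (hh : CM h) : h 1 = 1 := by
  have h1 := hh.mul 1 1 one_ne_zero one_ne_zero
  rw [mul_one, hh.sq one_ne_zero] at h1
  exact h1

lemma CM.mulZ (hh : CM h) {x y : ℤ} (hx : x ≠ 0) (hy : y ≠ 0) :
    h (x * y).natAbs = h x.natAbs * h y.natAbs := by
  rw [Int.natAbs_mul]
  exact hh.mul _ _ (Int.natAbs_ne_zero.2 hx) (Int.natAbs_ne_zero.2 hy)

lemma CM.sqZ (hh : CM h) {x : ℤ} (hx : x ≠ 0) : h x.natAbs * h x.natAbs = 1 :=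
  hh.sq (Int.natAbs_ne_zero.2 hx)

lemma CM.valZ (hh : CM h) {x : ℤ} (hx : x ≠ 0) : h x.natAbs = 1 ∨ h x.natAbs = -1 :=
  hh.val _ (Int.natAbs_ne_zero.2 hx)

lemma CM.powZ (hh : CM h) {x : ℤ} (hx : x ≠ 0) (n : ℕ) : h (x ^ n).natAbs = h x.natAbs ^ n := by
  induction n with
  | zero => simpa using hh.one
  | succ n ih => rw [pow_succ, pow_succ, hh.mulZ (pow_ne_zero n hx) hx, ih]

lemma pigeon {v v0 v1 v2 v3 v4 : ℤ} (hv : v = 1 ∨ v = -1) (h0 : v0 = 1 ∨ v0 = -1)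
    (h1 : v1 = 1 ∨ v1 = -1) (h2 : v2 = 1 ∨ v2 = -1) (h3 : v3 = 1 ∨ v3 = -1) (h4 : v4 = 1 ∨ v4 = -1)
    (h : v0 * v1 * v2 = v ^ 3 * (v3 * v4)) : v0 = v ∨ v1 = v ∨ v2 = v ∨ v3 = v ∨ v4 = v := by
  rcases hv with rfl | rfl <;> rcases h0 with rfl | rfl <;> rcases h1 with rfl | rfl <;>
    rcases h2 with rfl | rfl <;> rcases h3 with rfl | rfl <;> rcases h4 with rfl | rfl <;>
    simp_all

lemma sqrt_facts {N : ℕ} (hN : 1 ≤ N) : ∃ t : ℤ, 1 ≤ t ∧ (N : ℤ) < t ^ 2 ∧ t ^ 2 ≤ 4 * N := by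
  refine ⟨(Nat.sqrt N : ℤ) + 1, ?_, ?_, ?_⟩
  · have : (0:ℤ) ≤ (Nat.sqrt N : ℤ) := Int.natCast_nonneg _
    linarith
  · have := Nat.lt_succ_sqrt' N
    exact_mod_cast this
  · have h1 : 1 ≤ Nat.sqrt N := Nat.sqrt_pos.2 hN
    have h2 : Nat.sqrt N ^ 2 ≤ N := Nat.sqrt_le' N
    have h1' : (1:ℤ) ≤ (Nat.sqrt N : ℤ) := by exact_mod_cast h1
    have h2' : (Nat.sqrt N : ℤ) ^ 2 ≤ (N : ℤ) := by exact_mod_cast h2
    nlinarith

/-- the value `h (s S)` is taken in every interval `(N, Q N ^ 3]` -/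
theorem core {A B C e : ℤ} (hB : B ≠ 0) (hS : A - B - 2 * C ≠ 0) (he : e ≠ 0) (x0 : ℤ) :
    ∃ Q : ℤ, ∀ h : ℕ → ℤ, CM h → ∀ N : ℕ, 1 ≤ N → ∃ W : ℤ, (N : ℤ) < |x0 + W| ∧
      |x0 + W| ≤ Q * N ^ 3 ∧ PhiS A B C ((A - B - 2 * C) * B * e) W ≠ 0 ∧
      h (PhiS A B C ((A - B - 2 * C) * B * e) W).natAbs =
        h ((A - B - 2 * C) * B * e * (A - B - 2 * C)).natAbs := by
  obtain ⟨s, hs⟩ : ∃ s : ℤ, s = (A - B - 2 * C) * B * e := ⟨_, rfl⟩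
  have hs0 : s ≠ 0 := by rw [hs]; exact mul_ne_zero (mul_ne_zero hS hB) he
  obtain ⟨x, hx⟩ : ∃ x : ℤ, x = |x0| + (|s * A| + |3 * s ^ 2 * B * C| + |s ^ 3 * (B * C ^ 2)| + 2) :=
    ⟨_, rfl⟩
  have hx0 : 0 ≤ x := by rw [hx]; positivity
  obtain ⟨R, hR⟩ : ∃ R : ℤ, R = |A| + |C| + |3 * B * C + (A - B - 2 * C) * B| + |B * C ^ 2| + 2 + x :=
    ⟨_, rfl⟩
  have hA := abs_nonneg A
  have hC := abs_nonneg C
  have hb := abs_nonneg (3 * B * C + (A - B - 2 * C) * B)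
  have hc := abs_nonneg (B * C ^ 2)
  have hR2 : 2 ≤ R := by linarith
  refine ⟨(|x0| + Cst A B C e) * R ^ 6 * 64, ?_⟩
  intro h hh N hN
  obtain ⟨t, ht1, ht2, ht3⟩ := sqrt_facts hN
  obtain ⟨r, hr⟩ : ∃ r : ℤ, r = R * t := ⟨_, rfl⟩
  have hrR : R ≤ r := by rw [hr]; exact le_mul_of_one_le_right (by linarith) ht1
  have hrt : t ≤ r := by rw [hr]; exact le_mul_of_one_le_left (by linarith) (by linarith)
  have hlow : ∀ i, r ^ 2 + x ≤ |pt A B C e r i| := fun i => pt_low hB hS he hx0 (by rw [← hR]; exact hrR) i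
  have hup : ∀ i, |pt A B C e r i| ≤ Cst A B C e * r ^ 6 := fun i => pt_up hB (by linarith) i
  have hne : ∀ i, PhiS A B C s (pt A B C e r i) ≠ 0 := by
    intro i
    have h1 := hlow i
    have h2 : |s * A| + |3 * s ^ 2 * B * C| + |s ^ 3 * (B * C ^ 2)| + 2 ≤ |pt A B C e r i| := by
      have := abs_nonneg x0
      nlinarith [sq_nonneg r]
    exact cubic_ne h2
  have hval : ∀ i, h (PhiS A B C s (pt A B C e r i)).natAbs = 1 ∨
      h (PhiS A B C s (pt A B C e r i)).natAbs = -1 := fun i => hh.valZ (hne i)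
  have hrel := relation A B C e r
  rw [← hs] at hrel
  have hsS : s * (A - B - 2 * C) ≠ 0 := mul_ne_zero hs0 hS
  have hprod : h (PhiS A B C s (pt A B C e r 0)).natAbs * h (PhiS A B C s (pt A B C e r 1)).natAbs *
      h (PhiS A B C s (pt A B C e r 2)).natAbs = h (s * (A - B - 2 * C)).natAbs ^ 3 *
      (h (PhiS A B C s (pt A B C e r 3)).natAbs * h (PhiS A B C s (pt A B C e r 4)).natAbs) := by
    rw [← hh.mulZ (hne 0) (hne 1), ← hh.mulZ (mul_ne_zero (hne 0) (hne 1)) (hne 2), hrel,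
      hh.mulZ (pow_ne_zero 3 hsS) (mul_ne_zero (hne 3) (hne 4)), hh.powZ hsS,
      hh.mulZ (hne 3) (hne 4)]
  obtain ⟨i, hi⟩ : ∃ i : Fin 5, h (PhiS A B C s (pt A B C e r i)).natAbs =
      h (s * (A - B - 2 * C)).natAbs := by
    rcases pigeon (hh.valZ hsS) (hval 0) (hval 1) (hval 2) (hval 3) (hval 4) hprod with
      q | q | q | q | q
    · exact ⟨0, q⟩
    · exact ⟨1, q⟩
    · exact ⟨2, q⟩
    · exact ⟨3, q⟩
    · exact ⟨4, q⟩
  refine ⟨pt A B C e r i, ?_, ?_, ?_, ?_⟩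
  · have h1 := hlow i
    have h2 := rt (pt A B C e r i) x0
    rw [add_comm (pt A B C e r i) x0] at h2
    have h3 : t ^ 2 ≤ r ^ 2 := pow_le_pow_left₀ (by linarith) hrt 2
    have h4 : |x0| ≤ x := by
      rw [hx]
      have g1 := abs_nonneg (s * A)
      have g2 := abs_nonneg (3 * s ^ 2 * B * C)
      have g3 := abs_nonneg (s ^ 3 * (B * C ^ 2))
      linarith
    linarith
  · have h1 := hup i
    have h2 := abs_add_le x0 (pt A B C e r i)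
    have hr1 : 1 ≤ r ^ 6 := one_le_pow₀ (by linarith)
    have h3 : |x0| ≤ |x0| * r ^ 6 := le_mul_of_one_le_right (abs_nonneg _) hr1
    have h4 : r ^ 6 = R ^ 6 * (t ^ 2) ^ 3 := by rw [hr]; ring
    have h5 : (t ^ 2) ^ 3 ≤ (4 * (N : ℤ)) ^ 3 := pow_le_pow_left₀ (by positivity) ht3 3
    have h6 : r ^ 6 ≤ R ^ 6 * (64 * (N : ℤ) ^ 3) := by
      rw [h4]
      have : (4 * (N : ℤ)) ^ 3 = 64 * (N : ℤ) ^ 3 := by ring
      rw [← this]
      exact mul_le_mul_of_nonneg_left h5 (by positivity)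
    have h7 : (|x0| + Cst A B C e) * r ^ 6 ≤ (|x0| + Cst A B C e) * (R ^ 6 * (64 * (N : ℤ) ^ 3)) :=
      mul_le_mul_of_nonneg_left h6 (add_nonneg (abs_nonneg _) Cst_nonneg)
    calc |x0 + pt A B C e r i| ≤ |x0| + |pt A B C e r i| := h2
      _ ≤ (|x0| + Cst A B C e) * r ^ 6 := by linarith
      _ ≤ (|x0| + Cst A B C e) * (R ^ 6 * (64 * (N : ℤ) ^ 3)) := h7
      _ = (|x0| + Cst A B C e) * R ^ 6 * 64 * (N : ℤ) ^ 3 := by ring
  · rw [← hs]; exact hne i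
  · rw [← hs]; exact hi

end Pool.Agent.H39x.CU
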