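import Mathlib
import Pool.Agent.H39x.CU.Main

set_option autoImplicit false

/-!
# Cubic polynomials `T ^ 3 + a T ^ 2 + b T + c`, rational centres `u / v`
-/

namespace Pool.Agent.H39x.CU

lemma CM.sqZ' {h : ℕ → ℤ} (hh : CM h) {x : ℤ} (hx : x ≠ 0) : h (x ^ 2).natAbs = 1 := by
  rw [hh.powZ hx, pow_two, hh.sqZ hx]

/-- `D ^ 3 f (T / D)` for `f = X ^ 3 + a X ^ 2 + b X + c` -/
def F (a b c D T : ℤ) : ℤ := T ^ 3 + a * D * T ^ 2 + b * D ^ 2 * T + c * D ^ 3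

/-- `27 f (-a / 3)` -/
def K (a b c : ℤ) : ℤ := 2 * a ^ 3 - 9 * a * b + 27 * c

/-- `v f'' (u / v) / 2` -/
def A1 (a u v : ℤ) : ℤ := 3 * u + a * v
/-- `v ^ 2 f' (u / v)` -/
def B1 (a b u v : ℤ) : ℤ := 3 * u ^ 2 + 2 * a * u * v + b * v ^ 2
/-- `v ^ 3 f (u / v)` -/
def C1 (a b c u v : ℤ) : ℤ := u ^ 3 + a * u ^ 2 * v + b * u * v ^ 2 + c * v ^ 3

/-- `9 A1 B1 C1 - B1 ^ 3 - 54 C1 ^ 2` -/
def S1 (a b c u v : ℤ) : ℤ :=
  9 * A1 a u v * B1 a b u v * C1 a b c u v - B1 a b u v ^ 3 - 54 * C1 a b c u v ^ 2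

/-- the number `v B1 C1 (9 A1 B1 C1 - B1 ^ 3 - 54 C1 ^ 2)` -/
def Wt (a b c u v : ℤ) : ℤ := v * B1 a b u v * C1 a b c u v * S1 a b c u v

/-- the values `ε` of `h` at `F` are found in every interval `(N, Q N ^ 3]` -/
def Takes (h : ℕ → ℤ) (a b c D ε : ℤ) : Prop :=
  ∃ Q : ℤ, ∀ N : ℕ, 1 ≤ N → ∃ T : ℤ, (N : ℤ) < |T| ∧ |T| ≤ Q * N ^ 3 ∧ F a b c D T ≠ 0 ∧
    h (F a b c D T).natAbs = ε

/-- the scaling factor -/
def D0 (a b c u v : ℤ) : ℤ := 9 * v * B1 a b u v ^ 4 * C1 a b c u v * S1 a b c u v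

lemma Wt_ne {a b c u v : ℤ} (h : Wt a b c u v ≠ 0) :
    v ≠ 0 ∧ B1 a b u v ≠ 0 ∧ C1 a b c u v ≠ 0 ∧ S1 a b c u v ≠ 0 := by
  unfold Wt at h
  refine ⟨?_, ?_, ?_, ?_⟩ <;> intro h0 <;> exact h (by rw [h0]; ring)

lemma D0_ne {a b c u v : ℤ} (h : Wt a b c u v ≠ 0) : D0 a b c u v ≠ 0 := by
  obtain ⟨h1, h2, h3, h4⟩ := Wt_ne h
  unfold D0
  exact mul_ne_zero (mul_ne_zero (mul_ne_zero (mul_ne_zero (by norm_num) h1) (pow_ne_zero 4 h2)) h3) h4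

lemma shift {a b c u v s W B C : ℤ} (hB : B = B1 a b u v) (hC : C = C1 a b c u v) :
    F a b c (9 * v * B * C * s) (s * (9 * u * B * C) + W) =
      PhiS (9 * A1 a u v * B * C) (B ^ 3) (27 * C ^ 2) s W := by
  unfold F PhiS A1
  unfold B1 at hB
  unfold C1 at hC
  linear_combination (-81 * s ^ 2 * B ^ 2 * C ^ 2 * W) * hB + (-729 * s ^ 3 * B ^ 3 * C ^ 3) * hC

/-- **General centre.** -/
theorem centre {a b c u v : ℤ} (hW : Wt a b c u v ≠ 0) {D : ℤ} (hD : D ≠ 0)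
    (hdvd : D0 a b c u v ∣ D) {h : ℕ → ℤ} (hh : CM h) :
    Takes h a b c D (h (Wt a b c u v * D).natAbs) := by
  obtain ⟨hv, hB, hC, hS⟩ := Wt_ne hW
  obtain ⟨e, rfl⟩ := hdvd
  have he : e ≠ 0 := by rintro rfl; exact hD (by ring)
  obtain ⟨B, hB'⟩ : ∃ B, B = B1 a b u v := ⟨_, rfl⟩
  obtain ⟨C, hC'⟩ : ∃ C, C = C1 a b c u v := ⟨_, rfl⟩
  obtain ⟨S, hS'⟩ : ∃ S, S = S1 a b c u v := ⟨_, rfl⟩
  have hS2 : 9 * A1 a u v * B * C - B ^ 3 - 2 * (27 * C ^ 2) = S := by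
    rw [hS', hB', hC']
    unfold S1
    ring
  have hW2 : Wt a b c u v = v * B * C * S := by rw [hB', hC', hS']; rfl
  have hD2 : D0 a b c u v * e = 9 * v * B * C * (S * B ^ 3 * e) := by
    rw [hB', hC', hS']
    unfold D0
    ring
  rw [← hB'] at hB
  rw [← hC'] at hC
  rw [← hS'] at hS
  obtain ⟨Q, hQ⟩ := core (A := 9 * A1 a u v * B * C) (B := B ^ 3) (C := 27 * C ^ 2) (e := e)
    (pow_ne_zero 3 hB) (by rw [hS2]; exact hS) he (S * B ^ 3 * e * (9 * u * B * C))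
  refine ⟨Q, fun N hN => ?_⟩
  obtain ⟨W, h1, h2, h3, h4⟩ := hQ h hh N hN
  rw [hS2] at h3 h4
  refine ⟨S * B ^ 3 * e * (9 * u * B * C) + W, h1, h2, ?_, ?_⟩
  · rw [hD2, shift hB' hC']
    exact h3
  · rw [hD2, shift hB' hC', h4]
    have hsq : (v * B * C * S) * (9 * v * B * C * (S * B ^ 3 * e)) =
        (3 * v * B * C) ^ 2 * (S * B ^ 3 * e * S) := by ring
    rw [hW2, hsq, hh.mulZ (pow_ne_zero 2 (mul_ne_zero (mul_ne_zero (mul_ne_zero (by norm_num) hv) hB) hC))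
      (mul_ne_zero (mul_ne_zero (mul_ne_zero hS (pow_ne_zero 3 hB)) he) hS), hh.powZ
      (mul_ne_zero (mul_ne_zero (mul_ne_zero (by norm_num) hv) hB) hC), pow_two,
      hh.sqZ (mul_ne_zero (mul_ne_zero (mul_ne_zero (by norm_num) hv) hB) hC), one_mul]

/-- the special centre -/
lemma special (a b c : ℤ) : Wt a b c (9 * c - a * b) (2 * (a ^ 2 - 3 * b)) * 3 ^ 7 =
    8 * (a ^ 2 - 3 * b) ^ 4 * K a b c * (K a b c ^ 2 - 4 * (a ^ 2 - 3 * b) ^ 3) ^ 4 := by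
  unfold Wt S1 A1 B1 C1 K
  ring

lemma special_ne {a b c : ℤ} (hq : a ^ 2 - 3 * b ≠ 0) (hK : K a b c ≠ 0)
    (hd : K a b c ^ 2 - 4 * (a ^ 2 - 3 * b) ^ 3 ≠ 0) :
    Wt a b c (9 * c - a * b) (2 * (a ^ 2 - 3 * b)) ≠ 0 := by
  intro h0
  have h1 := special a b c
  rw [h0, zero_mul] at h1
  have h2 : 8 * (a ^ 2 - 3 * b) ^ 4 * K a b c * (K a b c ^ 2 - 4 * (a ^ 2 - 3 * b) ^ 3) ^ 4 ≠ 0 :=
    mul_ne_zero (mul_ne_zero (mul_ne_zero (by norm_num) (pow_ne_zero 4 hq)) hK) (pow_ne_zero 4 hd)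
  exact h2 h1.symm

lemma special_val {a b c : ℤ} (hq : a ^ 2 - 3 * b ≠ 0) (hK : K a b c ≠ 0)
    (hd : K a b c ^ 2 - 4 * (a ^ 2 - 3 * b) ^ 3 ≠ 0) {h : ℕ → ℤ} (hh : CM h) :
    h (Wt a b c (9 * c - a * b) (2 * (a ^ 2 - 3 * b))).natAbs = h (6 * K a b c).natAbs := by
  have hW := special_ne hq hK hd
  have h1 := special a b c
  have h2 : Wt a b c (9 * c - a * b) (2 * (a ^ 2 - 3 * b)) * (6 * K a b c) * (3 ^ 3) ^ 2 =
      (4 * (a ^ 2 - 3 * b) ^ 2 * K a b c * (K a b c ^ 2 - 4 * (a ^ 2 - 3 * b) ^ 3) ^ 2) ^ 2 := by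
    linear_combination (2 * K a b c) * h1
  have h6 : 6 * K a b c ≠ 0 := mul_ne_zero (by norm_num) hK
  have h3 : (4 * (a ^ 2 - 3 * b) ^ 2 * K a b c * (K a b c ^ 2 - 4 * (a ^ 2 - 3 * b) ^ 3) ^ 2) ≠ 0 :=
    mul_ne_zero (mul_ne_zero (mul_ne_zero (by norm_num) (pow_ne_zero 2 hq)) hK) (pow_ne_zero 2 hd)
  have h4 := congrArg (fun z : ℤ => h z.natAbs) h2
  rw [hh.mulZ (mul_ne_zero hW h6) (by norm_num), hh.mulZ hW h6,
    hh.sqZ' (by norm_num : (3 ^ 3 : ℤ) ≠ 0), hh.sqZ' h3, mul_one] at h4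
  have h5 := hh.sqZ h6
  calc h (Wt a b c (9 * c - a * b) (2 * (a ^ 2 - 3 * b))).natAbs
      = h (Wt a b c (9 * c - a * b) (2 * (a ^ 2 - 3 * b))).natAbs *
        (h (6 * K a b c).natAbs * h (6 * K a b c).natAbs) := by rw [h5, mul_one]
    _ = h (6 * K a b c).natAbs := by rw [← mul_assoc, h4, one_mul]

/-- **Every squarefree monic cubic.** -/
theorem universal {a b c : ℤ} (hq : a ^ 2 - 3 * b ≠ 0) (hK : K a b c ≠ 0)
    (hd : K a b c ^ 2 - 4 * (a ^ 2 - 3 * b) ^ 3 ≠ 0) {D : ℤ} (hD : D ≠ 0)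
    (hdvd : D0 a b c (9 * c - a * b) (2 * (a ^ 2 - 3 * b)) ∣ D) {h : ℕ → ℤ} (hh : CM h) :
    Takes h a b c D (h (6 * K a b c * D).natAbs) := by
  have h1 := centre (special_ne hq hK hd) hD hdvd hh
  rwa [hh.mulZ (special_ne hq hK hd) hD, special_val hq hK hd hh,
    ← hh.mulZ (mul_ne_zero (by norm_num) hK) hD] at h1

/-- Liouville's function -/
noncomputable def lamN (n : ℕ) : ℤ := (-1) ^ ArithmeticFunction.cardFactors n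

lemma lamN_cm : CM lamN := by
  refine ⟨fun m n hm hn => ?_, fun n _ => ?_⟩
  · unfold lamN
    rw [ArithmeticFunction.cardFactors_mul hm hn, pow_add]
  · unfold lamN
    exact neg_one_pow_eq_or ℤ _

end Pool.Agent.H39x.CU
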