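import Mathlib
import Pool.Agent.H39x.CU.Spec

set_option autoImplicit false

/-!
# Computation of Liouville's function, witnesses for small cubics
-/

namespace Pool.Agent.H39x.CU

/-- number of prime factors of `n`, all of them `≥ d` -/
def om : ℕ → ℕ → ℕ → Option Bool
  | 0, _, _ => none
  | k + 1, n, d => if n < d * d then (if n ≤ 1 then some false else some true) else
      if n % d = 0 then (om k (n / d) d).map (fun b => !b) else om k n (if d = 2 then 3 else d + 2)

lemma om_spec : ∀ (k n d : ℕ) (r : Bool), om k n d = some r → n ≠ 0 → (d = 2 ∨ d % 2 = 1 ∧ 3 ≤ d) →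
    (∀ p, p.Prime → p ∣ n → d ≤ p) → (r = true ↔ Odd (ArithmeticFunction.cardFactors n))
  | 0, n, d, r, h, _, _, _ => by simp [om] at h
  | k + 1, n, d, r, h, hn, hd, hp => by
    unfold om at h
    split_ifs at h with h1 h2 h3
    · have : n = 1 := by omega
      subst this
      simp at h
      subst h
      simp
    · have hpr : n.Prime := by
        rw [Nat.prime_def_le_sqrt]
        refine ⟨by omega, fun m hm2 hms hmn => ?_⟩
        obtain ⟨p, hpp, hpm⟩ := Nat.exists_prime_and_dvd (n := m) (by omega)
        have h4 := hp p hpp (hpm.trans hmn)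
        have h5 : p ≤ m := Nat.le_of_dvd (by omega) hpm
        have h6 : m * m ≤ n := Nat.le_sqrt.1 hms
        have h7 : d * d ≤ m * m := Nat.mul_le_mul (h4.trans h5) (h4.trans h5)
        omega
      simp at h
      subst h
      rw [ArithmeticFunction.cardFactors_apply_prime hpr]
      simp
    · obtain ⟨b, hb, rfl⟩ := Option.map_eq_some_iff.1 h
      have hdn : d ∣ n := Nat.dvd_of_mod_eq_zero h3
      have hdp : d.Prime := by
        obtain ⟨p, hpp, hpd⟩ := Nat.exists_prime_and_dvd (n := d) (by omega)
        have h4 := hp p hpp (hpd.trans hdn)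
        have h5 := Nat.le_of_dvd (by omega) hpd
        have h6 : p = d := le_antisymm h5 h4
        rwa [← h6]
      have hne : n / d ≠ 0 := by
        have : d ≤ n := Nat.le_of_dvd (Nat.pos_of_ne_zero hn) hdn
        have := Nat.div_pos this (by omega)
        omega
      have ih := om_spec k (n / d) d b hb hne hd
        (fun p hpp hpn => hp p hpp (hpn.trans (Nat.div_dvd_of_dvd hdn)))
      have hmul : n = d * (n / d) := (Nat.mul_div_cancel' hdn).symm
      rw [hmul, ArithmeticFunction.cardFactors_mul (by omega) hne,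
        ArithmeticFunction.cardFactors_apply_prime hdp]
      rw [show 1 + ArithmeticFunction.cardFactors (n / d) =
        ArithmeticFunction.cardFactors (n / d) + 1 from add_comm _ _, Nat.odd_add_one, ← ih]
      cases b <;> simp
    · refine om_spec k n 3 r h hn (Or.inr ⟨rfl, le_rfl⟩) (fun p hpp hpn => ?_)
      have h4 := hp p hpp hpn
      rcases Nat.lt_or_ge d p with h5 | h5
      · omega
      · exfalso
        have : p = d := le_antisymm h5 h4
        subst this
        exact h3 (Nat.mod_eq_zero_of_dvd hpn)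
    · refine om_spec k n (d + 2) r h hn (by omega) (fun p hpp hpn => ?_)
      have h4 := hp p hpp hpn
      rcases Nat.lt_or_ge d p with h5 | h5
      · by_contra h7
        have h8 : p = d + 1 := by omega
        rcases hpp.eq_two_or_odd with h9 | h9 <;> omega
      · exfalso
        have : p = d := le_antisymm h5 h4
        subst this
        exact h3 (Nat.mod_eq_zero_of_dvd hpn)

/-- parity of the number of prime factors of a nonzero integer -/
def par (z : ℤ) : Option Bool := if z = 0 then none else om 20000 z.natAbs 2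

lemma par_spec {z : ℤ} {r : Bool} (h : par z = some r) : z ≠ 0 ∧ lamN z.natAbs = if r then -1 else 1 := by
  unfold par at h
  split_ifs at h with h0
  have h1 := om_spec 20000 z.natAbs 2 r h (Int.natAbs_ne_zero.2 h0) (Or.inl rfl)
    (fun p hp _ => hp.two_le)
  refine ⟨h0, ?_⟩
  unfold lamN
  cases r
  · simp only [Bool.false_eq_true, false_iff, Nat.not_odd_iff_even] at h1
    simp [h1.neg_one_pow]
  · simp only [true_iff] at h1
    simp [h1.neg_one_pow]

/-- the test of the centre `u / v` -/
def test (k : Bool) (a b c u v : ℤ) : Bool :=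
  match par v, par (B1 a b u v), par (C1 a b c u v), par (S1 a b c u v) with
  | some x, some y, some z, some w => xor k (xor x (xor y (xor z w)))
  | _, _, _, _ => false

lemma test_spec {k : Bool} {a b c u v : ℤ} (hk : par (K a b c) = some k) (h : test k a b c u v = true) :
    Wt a b c u v ≠ 0 ∧ lamN (Wt a b c u v).natAbs = -lamN (K a b c).natAbs := by
  unfold test at h
  split at h
  · rename_i x y z w hx hy hz hw
    obtain ⟨k0, k1⟩ := par_spec hk
    obtain ⟨x0, x1⟩ := par_spec hx
    obtain ⟨y0, y1⟩ := par_spec hy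
    obtain ⟨z0, z1⟩ := par_spec hz
    obtain ⟨w0, w1⟩ := par_spec hw
    refine ⟨?_, ?_⟩
    · unfold Wt
      exact mul_ne_zero (mul_ne_zero (mul_ne_zero x0 y0) z0) w0
    · unfold Wt
      rw [lamN_cm.mulZ (mul_ne_zero (mul_ne_zero x0 y0) z0) w0,
        lamN_cm.mulZ (mul_ne_zero x0 y0) z0, lamN_cm.mulZ x0 y0, k1, x1, y1, z1, w1]
      revert h
      cases k <;> cases x <;> cases y <;> cases z <;> cases w <;> simp
  · simp at h

/-- the centres -/
def cands : List (ℤ × ℤ) :=
  [(0, 1), (-1, 1), (1, 1), (-2, 1), (2, 1), (-1, 2), (1, 2), (-3, 1), (3, 1), (-4, 1), (4, 1),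
   (-5, 1), (5, 1), (-3, 2), (3, 2), (-1, 3), (1, 3), (-2, 3), (2, 3), (-6, 1), (6, 1)]

/-- the test of one cubic -/
def ok (a b c : ℤ) : Bool :=
  (a ^ 2 - 3 * b == 0) || (K a b c == 0) || (K a b c ^ 2 - 4 * (a ^ 2 - 3 * b) ^ 3 == 0) ||
    (match par (K a b c) with
      | some k => cands.any (fun p => test k a b c p.1 p.2)
      | none => false)

/-- all tests -/
def all (H : ℕ) : Bool :=
  (List.range 3).all fun i => (List.range (2 * H + 1)).all fun j => (List.range (2 * H + 1)).all fun k =>
    ok ((i : ℤ) - 1) ((j : ℤ) - H) ((k : ℤ) - H)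

lemma all_spec {H : ℕ} (h : all H = true) {a b c : ℤ} (ha : |a| ≤ 1) (hb : |b| ≤ H) (hc : |c| ≤ H) :
    ok a b c = true := by
  rw [abs_le] at ha hb hc
  unfold all at h
  rw [List.all_eq_true] at h
  have h1 := h (a + 1).toNat (List.mem_range.2 (by omega))
  rw [List.all_eq_true] at h1
  have h2 := h1 (b + H).toNat (List.mem_range.2 (by omega))
  rw [List.all_eq_true] at h2
  have h3 := h2 (c + H).toNat (List.mem_range.2 (by omega))
  have e1 : (((a + 1).toNat : ℕ) : ℤ) - 1 = a := by omega
  have e2 : (((b + H).toNat : ℕ) : ℤ) - H = b := by omega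
  have e3 : (((c + H).toNat : ℕ) : ℤ) - H = c := by omega
  rw [e1, e2, e3] at h3
  exact h3

lemma ok_spec {a b c : ℤ} (h : ok a b c = true) (hq : a ^ 2 - 3 * b ≠ 0) (hK : K a b c ≠ 0)
    (hd : K a b c ^ 2 - 4 * (a ^ 2 - 3 * b) ^ 3 ≠ 0) :
    ∃ u v : ℤ, Wt a b c u v ≠ 0 ∧ lamN (Wt a b c u v).natAbs = -lamN (K a b c).natAbs := by
  unfold ok at h
  simp only [Bool.or_eq_true, beq_iff_eq] at h
  rcases h with ((h | h) | h) | h
  · exact absurd h hq
  · exact absurd h hK
  · exact absurd h hd
  · split at h
    · rename_i k hk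
      obtain ⟨p, _, h⟩ := List.any_eq_true.1 h
      exact ⟨p.1, p.2, test_spec hk h⟩
    · simp at h


end Pool.Agent.H39x.CU
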