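import Mathlib
import Pool.Agent.H39x.CU.Box

set_option autoImplicit false

/-!
# The witnesses for the cubics with `|a| ≤ 1`, `|b|, |c| ≤ 20`
-/

namespace Pool.Agent.H39x.CU

set_option maxRecDepth 100000 in
lemma small : all 20 = true := by decide +kernel

end Pool.Agent.H39x.CU
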