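import Mathlib
import Pool.Agent.H39x.CU.Spec

set_option autoImplicit false

/-!
# Irreducible cubics
-/

namespace Pool.Agent.H39x.CU

open Polynomial

lemma no_root {a b c t : ℤ} (hf : Irreducible (X ^ 3 + C a * X ^ 2 + C b * X + C c : ℤ[X]))
    (ht : t ^ 3 + a * t ^ 2 + b * t + c = 0) : False := by
  have hfac : (X ^ 3 + C a * X ^ 2 + C b * X + C c : ℤ[X]) =
      (X - C t) * (X ^ 2 + C (a + t) * X + C (b + a * t + t ^ 2)) := by
    have hc : c = -(t ^ 3 + a * t ^ 2 + b * t) := by linarith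
    rw [hc]
    simp only [C_neg, C_add, C_mul, C_pow]
    ring
  rw [hfac] at hf
  rcases hf.isUnit_or_isUnit rfl with h | h
  · exact not_isUnit_X_sub_C t h
  · have h1 := natDegree_eq_zero_of_isUnit h
    have h2 : (X ^ 2 + C (a + t) * X + C (b + a * t + t ^ 2) : ℤ[X]).natDegree = 2 := by
      compute_degree!
    omega

lemma K_ne {a b c : ℤ} (hf : Irreducible (X ^ 3 + C a * X ^ 2 + C b * X + C c : ℤ[X])) :
    K a b c ≠ 0 := by
  intro h
  unfold K at h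
  have h3 : ∃ k, a = 3 * k := by
    rcases (by omega : a % 3 = 0 ∨ a % 3 = 1 ∨ a % 3 = 2) with h0 | h0 | h0
    · exact ⟨a / 3, by omega⟩
    · exfalso
      obtain ⟨k, rfl⟩ : ∃ k, a = 3 * k + 1 := ⟨a / 3, by omega⟩
      ring_nf at h
      omega
    · exfalso
      obtain ⟨k, rfl⟩ : ∃ k, a = 3 * k + 2 := ⟨a / 3, by omega⟩
      ring_nf at h
      omega
  obtain ⟨k, rfl⟩ := h3
  refine no_root (t := -k) hf ?_
  have : 27 * ((-k) ^ 3 + 3 * k * (-k) ^ 2 + b * (-k) + c) = 0 := by linear_combination h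
  omega

lemma disc_ne {a b c : ℤ} (hf : Irreducible (X ^ 3 + C a * X ^ 2 + C b * X + C c : ℤ[X]))
    (hq : a ^ 2 - 3 * b ≠ 0) : K a b c ^ 2 - 4 * (a ^ 2 - 3 * b) ^ 3 ≠ 0 := by
  intro h
  obtain ⟨K', hK'⟩ : ∃ K', K a b c = 2 * K' := by
    rcases Int.even_or_odd' (K a b c) with ⟨k, hk | hk⟩
    · exact ⟨k, hk⟩
    · exfalso
      rw [hk] at h
      generalize (a ^ 2 - 3 * b) ^ 3 = y at h
      ring_nf at h
      omega
  have h1 : K' ^ 2 = (a ^ 2 - 3 * b) ^ 3 := by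
    rw [hK'] at h
    have : 4 * K' ^ 2 = 4 * (a ^ 2 - 3 * b) ^ 3 := by linear_combination h
    linarith
  obtain ⟨m, hm⟩ : (a ^ 2 - 3 * b) ∣ K' := by
    rw [← Int.pow_dvd_pow_iff (two_ne_zero)]
    exact ⟨a ^ 2 - 3 * b, by rw [h1]; ring⟩
  have h2 : m ^ 2 = a ^ 2 - 3 * b := by
    rw [hm] at h1
    have h4 : (a ^ 2 - 3 * b) ^ 2 * (m ^ 2) = (a ^ 2 - 3 * b) ^ 2 * (a ^ 2 - 3 * b) := by
      linear_combination h1
    exact mul_left_cancel₀ (pow_ne_zero 2 hq) h4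
  have h3 : K a b c = 2 * m ^ 3 := by
    rw [hK', hm, ← h2]
    ring
  unfold K at h3
  obtain ⟨t, ht⟩ : ∃ t, m = a + 3 * t := by
    have e1 : m ^ 2 - a ^ 2 + 3 * b = 0 := by linear_combination h2
    obtain ⟨i, hi | hi | hi⟩ : ∃ i, m = 3 * i ∨ m = 3 * i + 1 ∨ m = 3 * i + 2 :=
      ⟨m / 3, by omega⟩ <;>
    obtain ⟨l, hl | hl | hl⟩ : ∃ i, a = 3 * i ∨ a = 3 * i + 1 ∨ a = 3 * i + 2 :=
      ⟨a / 3, by omega⟩ <;>
    subst hi <;> subst hl <;>
    first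
      | exact ⟨i - l, by omega⟩
      | (exfalso; ring_nf at e1; omega)
      | (exfalso; ring_nf at h3; omega)
  refine no_root (t := t) hf ?_
  have e2 : 27 * (t ^ 3 + a * t ^ 2 + b * t + c) = 0 := by
    subst ht
    linear_combination h3 + (3 * (a + 3 * t)) * h2
  omega

end Pool.Agent.H39x.CU
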