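import Mathlib
import Pool.Agent.H39x.CU.Irr
import Pool.Agent.H39x.CU.Check

set_option autoImplicit false

/-!
# Assembly
-/

namespace Pool.Agent.H39x.CU

open Polynomial

lemma D0_special (a b c : ℤ) : D0 a b c (9 * c - a * b) (2 * (a ^ 2 - 3 * b)) ∣
    8 * (a ^ 2 - 3 * b) ^ 4 * K a b c * (K a b c ^ 2 - 4 * (a ^ 2 - 3 * b) ^ 3) ^ 7 := by
  refine ⟨3 ^ 8, ?_⟩
  have h1 := special a b c
  have hB : 3 * B1 a b (9 * c - a * b) (2 * (a ^ 2 - 3 * b)) =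
      K a b c ^ 2 - 4 * (a ^ 2 - 3 * b) ^ 3 := by
    unfold B1 K
    ring
  have h2 : D0 a b c (9 * c - a * b) (2 * (a ^ 2 - 3 * b)) =
      9 * B1 a b (9 * c - a * b) (2 * (a ^ 2 - 3 * b)) ^ 3 *
        Wt a b c (9 * c - a * b) (2 * (a ^ 2 - 3 * b)) := by
    unfold D0 Wt
    ring
  rw [h2]
  have h3 : 9 * B1 a b (9 * c - a * b) (2 * (a ^ 2 - 3 * b)) ^ 3 *
        Wt a b c (9 * c - a * b) (2 * (a ^ 2 - 3 * b)) * 3 ^ 8 =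
      (3 * B1 a b (9 * c - a * b) (2 * (a ^ 2 - 3 * b))) ^ 3 *
        (Wt a b c (9 * c - a * b) (2 * (a ^ 2 - 3 * b)) * 3 ^ 7) := by ring
  rw [h3, hB, h1]
  ring

/-- the universal value -/
theorem fin1 {a b c : ℤ} (hq : a ^ 2 ≠ 3 * b) (hK : K a b c ≠ 0)
    (hd : K a b c ^ 2 ≠ 4 * (a ^ 2 - 3 * b) ^ 3) {D : ℤ} (hD : D ≠ 0)
    (hdvd : 8 * (a ^ 2 - 3 * b) ^ 4 * K a b c * (K a b c ^ 2 - 4 * (a ^ 2 - 3 * b) ^ 3) ^ 7 ∣ D)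
    {h : ℕ → ℤ} (hh : CM h) : Takes h a b c D (h (6 * K a b c * D).natAbs) :=
  universal (sub_ne_zero.2 hq) hK (sub_ne_zero.2 hd) hD ((D0_special a b c).trans hdvd) hh

lemma lam6 {x : ℤ} (hx : x ≠ 0) : lamN (6 * x).natAbs = lamN x.natAbs := by
  rw [lamN_cm.mulZ (by norm_num) hx]
  have h6 : lamN (6 : ℤ).natAbs = 1 := by
    have h2 : (6 : ℤ).natAbs = 2 * 3 := rfl
    rw [h2, lamN_cm.mul 2 3 (by norm_num) (by norm_num)]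
    unfold lamN
    rw [ArithmeticFunction.cardFactors_apply_prime Nat.prime_two,
      ArithmeticFunction.cardFactors_apply_prime Nat.prime_three]
    norm_num
  rw [h6, one_mul]

/-- the universal value for Liouville's function -/
theorem fin2 {a b c : ℤ} (hf : Irreducible (X ^ 3 + C a * X ^ 2 + C b * X + C c : ℤ[X]))
    (hq : a ^ 2 ≠ 3 * b) {D : ℤ} (hD : D ≠ 0)
    (hdvd : 8 * (a ^ 2 - 3 * b) ^ 4 * K a b c * (K a b c ^ 2 - 4 * (a ^ 2 - 3 * b) ^ 3) ^ 7 ∣ D) :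
    Takes lamN a b c D (lamN (K a b c * D).natAbs) := by
  have hK := K_ne hf
  have hd := disc_ne hf (sub_ne_zero.2 hq)
  have h := fin1 hq hK (sub_ne_zero.1 hd) hD hdvd lamN_cm
  rw [mul_assoc, lam6 (mul_ne_zero hK hD)] at h
  exact h

/-- both signs -/
theorem fin3 {a b c u v : ℤ} (hq : a ^ 2 ≠ 3 * b) (hK : K a b c ≠ 0)
    (hd : K a b c ^ 2 ≠ 4 * (a ^ 2 - 3 * b) ^ 3) (hW : Wt a b c u v ≠ 0)
    (hl : lamN (Wt a b c u v).natAbs ≠ lamN (K a b c).natAbs) :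
    ∃ D₀ : ℤ, D₀ ≠ 0 ∧ ∀ D : ℤ, D ≠ 0 → D₀ ∣ D → Takes lamN a b c D 1 ∧ Takes lamN a b c D (-1) := by
  refine ⟨8 * (a ^ 2 - 3 * b) ^ 4 * K a b c * (K a b c ^ 2 - 4 * (a ^ 2 - 3 * b) ^ 3) ^ 7 *
    D0 a b c u v, ?_, ?_⟩
  · exact mul_ne_zero (mul_ne_zero (mul_ne_zero (mul_ne_zero (by norm_num)
      (pow_ne_zero 4 (sub_ne_zero.2 hq))) hK) (pow_ne_zero 7 (sub_ne_zero.2 hd))) (D0_ne hW)
  · intro D hD hdvd
    have h1 := fin1 hq hK hd hD ((dvd_mul_right _ _).trans hdvd) lamN_cm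
    rw [mul_assoc, lam6 (mul_ne_zero hK hD), lamN_cm.mulZ hK hD] at h1
    have h2 := centre hW hD ((dvd_mul_left _ _).trans hdvd) lamN_cm
    rw [lamN_cm.mulZ hW hD] at h2
    rcases lamN_cm.valZ hK with k | k <;> rcases lamN_cm.valZ hD with d | d <;>
      rcases lamN_cm.valZ hW with w | w <;> rw [k, d] at h1 <;> rw [w, d] at h2 <;>
      rw [k, w] at hl <;> norm_num at h1 h2 hl <;>
      first | exact ⟨h1, h2⟩ | exact ⟨h2, h1⟩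

/-- small cubics -/
theorem fin4 {a b c : ℤ} (ha : |a| ≤ 1) (hb : |b| ≤ 20) (hc : |c| ≤ 20) (hq : a ^ 2 ≠ 3 * b)
    (hK : K a b c ≠ 0) (hd : K a b c ^ 2 ≠ 4 * (a ^ 2 - 3 * b) ^ 3) :
    ∃ D₀ : ℤ, D₀ ≠ 0 ∧ ∀ D : ℤ, D ≠ 0 → D₀ ∣ D → Takes lamN a b c D 1 ∧ Takes lamN a b c D (-1) := by
  obtain ⟨u, v, hW, hl⟩ := ok_spec (all_spec small ha (by exact_mod_cast hb) (by exact_mod_cast hc))
    (sub_ne_zero.2 hq) hK (sub_ne_zero.2 hd)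
  refine fin3 hq hK hd hW ?_
  rw [hl]
  rcases lamN_cm.valZ hK with k | k <;> rw [k] <;> norm_num

end Pool.Agent.H39x.CU

namespace Pool.Agent.H39x.CU

/-- a two parameter family -/
theorem fin5 {m n : ℤ} (hm : m ≠ 0) (hn : n ≠ 0) (hs : 54 * n ^ 2 - m ^ 2 ≠ 0) :
    ∃ D₀ : ℤ, D₀ ≠ 0 ∧ ∀ D : ℤ, D ≠ 0 → D₀ ∣ D →
      Takes lamN 0 ((54 * n ^ 2 - m ^ 2) ^ 2) (2 * m * n * (54 * n ^ 2 - m ^ 2) ^ 2) D 1 ∧
      Takes lamN 0 ((54 * n ^ 2 - m ^ 2) ^ 2) (2 * m * n * (54 * n ^ 2 - m ^ 2) ^ 2) D (-1) := by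
  obtain ⟨s, hs'⟩ : ∃ s, s = 54 * n ^ 2 - m ^ 2 := ⟨_, rfl⟩
  rw [← hs'] at hs ⊢
  have hmn : 2 * m * n ≠ 0 := mul_ne_zero (mul_ne_zero (by norm_num) hm) hn
  have hK : K 0 (s ^ 2) (2 * m * n * s ^ 2) = (2 * m * n) * (3 * (3 * s) ^ 2) := by
    unfold K
    ring
  have hW : Wt 0 (s ^ 2) (2 * m * n * s ^ 2) 0 1 = (-(2 * m * n)) * (s ^ 4 * (54 * n ^ 2 + m ^ 2)) ^ 2 := by
    unfold Wt S1 A1 B1 C1
    rw [hs']
    ring
  have hpos : 54 * n ^ 2 + m ^ 2 ≠ 0 := by positivity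
  have hK0 : K 0 (s ^ 2) (2 * m * n * s ^ 2) ≠ 0 := by
    rw [hK]
    exact mul_ne_zero hmn (mul_ne_zero (by norm_num) (pow_ne_zero 2 (mul_ne_zero (by norm_num) hs)))
  have hW0 : Wt 0 (s ^ 2) (2 * m * n * s ^ 2) 0 1 ≠ 0 := by
    rw [hW]
    exact mul_ne_zero (neg_ne_zero.2 hmn) (pow_ne_zero 2 (mul_ne_zero (pow_ne_zero 4 hs) hpos))
  refine fin3 (u := 0) (v := 1) ?_ hK0 ?_ hW0 ?_
  · have : 0 < s ^ 2 := by positivity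
    intro h0
    nlinarith
  · have h1 : 0 < s ^ 2 := by positivity
    have h2 : 0 < (s ^ 2) ^ 3 := by positivity
    intro h0
    have h3 : 0 ≤ K 0 (s ^ 2) (2 * m * n * s ^ 2) ^ 2 := sq_nonneg _
    rw [h0] at h3
    nlinarith
  · rw [hW, hK, lamN_cm.mulZ (neg_ne_zero.2 hmn) (pow_ne_zero 2 (mul_ne_zero (pow_ne_zero 4 hs) hpos)),
      lamN_cm.sqZ' (mul_ne_zero (pow_ne_zero 4 hs) hpos), mul_one, Int.natAbs_neg,
      lamN_cm.mulZ hmn (mul_ne_zero (by norm_num) (pow_ne_zero 2 (mul_ne_zero (by norm_num) hs))),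
      lamN_cm.mulZ (by norm_num) (pow_ne_zero 2 (mul_ne_zero (by norm_num) hs)),
      lamN_cm.sqZ' (mul_ne_zero (by norm_num) hs), mul_one]
    have h3 : lamN (3 : ℤ).natAbs = -1 := by
      have : (3 : ℤ).natAbs = 3 := rfl
      rw [this]
      unfold lamN
      rw [ArithmeticFunction.cardFactors_apply_prime Nat.prime_three]
      norm_num
    rw [h3]
    rcases lamN_cm.valZ hmn with k | k <;> rw [k] <;> norm_num

end Pool.Agent.H39x.CU
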